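import Pool.Agent.Lib.Pbbea99T.D5.Fin
import Pool.Agent.Lib.Pbbea99S.Low4
import Pool.Agent.Lib.Pbbea99S.Low5

/-!
# MP_bbea99_co: the Abelian repetitive threshold of five letters

`ART(5) = 3/2`, and `DART(r) = 5` for all `r` in `(3/2, 9/5]`.
-/

namespace Pool.Agent.Results.MP_bbea99_co.FiveLettersExact

open MPbbea99S

theorem result :
    ART 5 = 3 / 2 ∧ (∀ r : ℝ, 3 / 2 < r → r ≤ 9 / 5 → DART r = 5) ∧ ¬ Avoid (3 / 2) 5 := by
  have hav : ∀ s : ℝ, 3 / 2 < s → Avoid s 5 := by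
    intro s hs
    apply MPbbea99T.D5.avoid s (by linarith)
    norm_num
    linarith
  have n4 : ¬ Avoid (9 / 5) 4 := by
    have h : ¬ Avoid (1 + 4 / 5) 4 :=
      not_avoid_of_ext (by norm_num) (by norm_num) (by norm_num) Low4.noext
    have e : (9 / 5 : ℝ) = 1 + 4 / 5 := by norm_num
    rwa [e]
  have n5 : ¬ Avoid (3 / 2) 5 := by
    have h : ¬ Avoid (1 + 1 / 2) 5 :=
      not_avoid_of_ext (by norm_num) (by norm_num) (by norm_num) Low5.noext
    have e : (3 / 2 : ℝ) = 1 + 1 / 2 := by norm_num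
    rwa [e]
  have hlow : ∀ t, Avoid t 5 → (3 / 2 : ℝ) ≤ t := by
    intro t ht
    by_contra hlt
    push Not at hlt
    exact n5 (ht.mono hlt.le)
  refine ⟨le_antisymm ?_ ?_, ?_, n5⟩
  · apply le_of_forall_pos_le_add
    intro ε hε
    exact ART_le (hav (3 / 2 + ε) (by linarith)) hlow
  · exact le_ART (hav 2 (by norm_num)) hlow
  · intro r h1 h2
    exact DART_eq (hav r h1) (fun h => n4 (h.mono h2))

end Pool.Agent.Results.MP_bbea99_co.FiveLettersExact
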