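import Pool.Agent.Lib.Pbbea99N.Out
import Pool.Agent.Lib.Pbbea99N.Low

/-!
# MP_bbea99_co: the Abelian repetitive threshold and its dual, up to an additive constant

Five letters more than `E` suffice for every exponent larger than `1 + 1/E`, for all large `E`;
three letters more do not suffice.
-/

namespace Pool.Agent.Results.MP_bbea99_co.FiveMoreLetters

open MPbbea99 MPbbea99L MPbbea99N

theorem result :
    ((∀ E : ℕ, 2 ^ 7001 ≤ E → ∀ s : ℝ, 1 + 1 / (E : ℝ) < s → Avoid s (E + 5)) ∧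
      (∀ E : ℕ, 3 ≤ E → Avoid (1 + 1 / (E : ℝ)) (E + 63 * Nat.log 2 E + 391)) ∧
      ∀ E : ℕ, 4 ≤ E → ¬ Avoid (1 + 1 / (E : ℝ)) (E + 3)) ∧
    ((∀ n : ℕ, 7 ≤ n → 1 + 1 / ((n : ℝ) - 3) ≤ ART n) ∧
      (∀ n : ℕ, 2 ^ 7002 ≤ n → ART n ≤ 1 + 1 / ((n : ℝ) - 5)) ∧
      ∀ n : ℕ, 442000 < n → ART n ≤ 1 + 1 / ((n : ℝ) - 442000)) ∧
    (∀ r : ℝ, 1 < r → r ≤ 2 → Avoid r (DART r) ∧
      ⌊1 / (r - 1)⌋₊ + 2 ≤ DART r ∧ (4 ≤ 1 / (r - 1) → ⌊1 / (r - 1)⌋₊ + 4 ≤ DART r) ∧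
      (DART r : ℝ) ≤ 1 / (r - 1) + 442000 ∧
      ((2 : ℝ) ^ 7001 ≤ 1 / (r - 1) → DART r ≤ ⌊1 / (r - 1)⌋₊ + 6)) :=
  ⟨⟨fun _ hE _ hs => avoid_five hE hs, fun E hE => avoid_log E _ hE (by omega),
      fun _ hE => not_avoid_E hE⟩,
    ⟨fun _ hn => ART_lower_three hn, fun _ hn => ART_five hn, fun _ hn => ART_upper5 hn⟩,
    fun _ hr1 hr2 => ⟨DART_mem hr1, DART_lower5 hr1 hr2, fun hx => DART_lower_three hr1 hx,
      DART_upper5 hr1 hr2, fun hr => DART_five hr1 hr⟩⟩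

end Pool.Agent.Results.MP_bbea99_co.FiveMoreLetters
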