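import Pool.Agent.Lib.Pbbea99G.E4.Fin
import Pool.Agent.Lib.Pbbea99T.D5.Fin
import Pool.Agent.Lib.Pbbea99S.Low3
import Pool.Agent.Lib.Pbbea99S.Low4

/-!
# MP_bbea99_co: the Abelian repetitive threshold of four letters

`9/5 ≤ ART(4) ≤ 11/6`, and `DART(r) = 4` for all `r` in `(11/6, 2]`.
-/

namespace Pool.Agent.Results.MP_bbea99_co.FourLetters

open MPbbea99S

theorem result :
    (9 / 5 ≤ ART 4 ∧ ART 4 ≤ 11 / 6) ∧ (∀ s : ℝ, 11 / 6 < s → Avoid s 4) ∧
      (∀ r : ℝ, 11 / 6 < r → r ≤ 2 → DART r = 4) ∧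
      ∀ r : ℝ, 9 / 5 < r → r ≤ 11 / 6 → DART r = 4 ∨ DART r = 5 := by
  have hav : ∀ s : ℝ, 11 / 6 < s → Avoid s 4 := by
    intro s hs
    apply MPbbea99G.E4.avoid s (by linarith)
    norm_num
    linarith
  have hav5 : ∀ s : ℝ, 3 / 2 < s → Avoid s 5 := by
    intro s hs
    apply MPbbea99T.D5.avoid s (by linarith)
    norm_num
    linarith
  have n3 : ¬ Avoid 2 3 :=
    not_avoid_of_ext (A := 0) (B := 1) (by norm_num) (by norm_num) (by norm_num) Low3.noext
  have n4 : ¬ Avoid (9 / 5) 4 := by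
    have h : ¬ Avoid (1 + 4 / 5) 4 :=
      not_avoid_of_ext (by norm_num) (by norm_num) (by norm_num) Low4.noext
    have e : (9 / 5 : ℝ) = 1 + 4 / 5 := by norm_num
    rwa [e]
  have hlow : ∀ t, Avoid t 4 → (9 / 5 : ℝ) ≤ t := by
    intro t ht
    by_contra hlt
    push Not at hlt
    exact n4 (ht.mono hlt.le)
  refine ⟨⟨?_, ?_⟩, hav, ?_, ?_⟩
  · exact le_ART (hav 2 (by norm_num)) hlow
  · apply le_of_forall_pos_le_add
    intro ε hε
    exact ART_le (hav (11 / 6 + ε) (by linarith)) hlow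
  · intro r h1 h2
    exact DART_eq (hav r h1) (fun h => n3 (h.mono h2))
  · intro r h1 h2
    have h3 : ¬ Avoid r 3 := fun h => n3 (h.mono (by linarith))
    by_cases h4 : Avoid r 4
    · exact Or.inl (DART_eq h4 h3)
    · exact Or.inr (DART_eq (hav5 r (by linarith)) h4)

end Pool.Agent.Results.MP_bbea99_co.FourLetters
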