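import Pool.Agent.Lib.Pbbea99G.E6.Fin
import Pool.Agent.Lib.Pbbea99T.D7.Fin
import Pool.Agent.Lib.Pbbea99G.E8.Fin
import Pool.Agent.Lib.Pbbea99G.E9.Fin
import Pool.Agent.Lib.Pbbea99G.E10.Fin
import Pool.Agent.Lib.Pbbea99G.E11.Fin
import Pool.Agent.Lib.Pbbea99G.E12.Fin
import Pool.Agent.Lib.Pbbea99S.Low5
import Pool.Agent.Lib.CycAb.Low6
import Pool.Agent.Lib.Pbbea99N.LowS

/-!
# MP_bbea99_co: the Abelian repetitive threshold of six to twelve letters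

`4/3 ≤ ART(6) ≤ 7/5` and `1 + 1/(n-3) ≤ ART(n) ≤ 1 + 1/(n-4)` for `7 ≤ n ≤ 12`; the value of
`DART(r)` for `7/5 < r ≤ 3/2`, and up to one unit for `9/8 < r ≤ 7/5`.
-/

namespace Pool.Agent.Results.MP_bbea99_co.SixToTwelve

open MPbbea99S

theorem result :
    ((∀ s : ℝ, 7 / 5 < s → Avoid s 6) ∧
      ∀ n : ℕ, 7 ≤ n → n ≤ 12 → ∀ s : ℝ, 1 + 1 / ((n : ℝ) - 4) < s → Avoid s n) ∧
    ((4 / 3 ≤ ART 6 ∧ ART 6 ≤ 7 / 5) ∧
      ∀ n : ℕ, 7 ≤ n → n ≤ 12 →
        1 + 1 / ((n : ℝ) - 3) ≤ ART n ∧ ART n ≤ 1 + 1 / ((n : ℝ) - 4)) ∧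
    (∀ r : ℝ, 7 / 5 < r → r ≤ 3 / 2 → DART r = 6) ∧
    (∀ r : ℝ, 4 / 3 < r → r ≤ 7 / 5 → DART r = 6 ∨ DART r = 7) ∧
    ∀ n : ℕ, 7 ≤ n → n ≤ 11 → ∀ r : ℝ, 1 + 1 / ((n : ℝ) - 3) < r →
      r ≤ 1 + 1 / ((n : ℝ) - 4) → DART r = n ∨ DART r = n + 1 := by
  have a6 : ∀ s : ℝ, 7 / 5 < s → Avoid s 6 := by
    intro s hs
    apply MPbbea99G.E6.avoid s (by linarith)
    norm_num
    linarith
  have an : ∀ n : ℕ, 7 ≤ n → n ≤ 12 → ∀ s : ℝ, 1 + 1 / ((n : ℝ) - 4) < s → Avoid s n := by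
    intro n h1 h2 s hs
    interval_cases n
    · norm_num at hs
      apply MPbbea99T.D7.avoid s (by linarith)
      norm_num
      linarith
    · norm_num at hs
      apply MPbbea99G.E8.avoid s (by linarith)
      norm_num
      linarith
    · norm_num at hs
      apply MPbbea99G.E9.avoid s (by linarith)
      norm_num
      linarith
    · norm_num at hs
      apply MPbbea99G.E10.avoid s (by linarith)
      norm_num
      linarith
    · norm_num at hs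
      apply MPbbea99G.E11.avoid s (by linarith)
      norm_num
      linarith
    · norm_num at hs
      apply MPbbea99G.E12.avoid s (by linarith)
      norm_num
      linarith
  have n5 : ¬ Avoid (3 / 2) 5 := by
    have h : ¬ Avoid (1 + 1 / 2) 5 :=
      not_avoid_of_ext (by norm_num) (by norm_num) (by norm_num) Low5.noext
    have e : (3 / 2 : ℝ) = 1 + 1 / 2 := by norm_num
    rwa [e]
  have n6 : ¬ Avoid (4 / 3) 6 := by
    have h : ¬ Avoid (1 + ((1 : ℕ) : ℝ) / ((3 : ℕ) : ℝ)) 6 := CycAb.Low6.not_avoid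
    have e : (4 / 3 : ℝ) = 1 + ((1 : ℕ) : ℝ) / ((3 : ℕ) : ℝ) := by norm_num
    rwa [e]
  have nn : ∀ n : ℕ, 6 ≤ n → ¬ Avoid (1 + 1 / ((n : ℝ) - 3)) n := by
    intro n hn
    rcases Nat.eq_or_lt_of_le hn with h | h
    · rw [← h]
      have e : (1 + 1 / (((6 : ℕ) : ℝ) - 3) : ℝ) = 4 / 3 := by norm_num
      rw [e]
      exact n6
    · exact MPbbea99NS.not_avoid_three h le_rfl
  have low : ∀ {x : ℝ} {n : ℕ}, ¬ Avoid x n → ∀ t, Avoid t n → x ≤ t := by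
    intro x n hn t ht
    by_contra hlt
    push Not at hlt
    exact hn (ht.mono hlt.le)
  have up : ∀ {x y : ℝ} {n : ℕ}, (∀ s : ℝ, x < s → Avoid s n) → (∀ t, Avoid t n → y ≤ t) →
      ART n ≤ x := by
    intro x y n ha hl
    apply le_of_forall_pos_le_add
    intro ε hε
    exact ART_le (ha (x + ε) (by linarith)) hl
  have inv1 : ∀ n : ℕ, 7 ≤ n → 1 + 1 / ((n : ℝ) - 4) < 2 := by
    intro n hn
    have h : (7 : ℝ) ≤ n := by exact_mod_cast hn
    have h1 : 1 / ((n : ℝ) - 4) < 1 := by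
      rw [div_lt_one (by linarith)]
      linarith
    linarith
  refine ⟨⟨a6, an⟩, ⟨⟨?_, up a6 (low n6)⟩, fun n h1 h2 => ⟨?_, ?_⟩⟩, ?_, ?_, ?_⟩
  · exact le_ART (a6 2 (by norm_num)) (low n6)
  · exact le_ART (an n h1 h2 2 (inv1 n h1)) (low (nn n (by omega)))
  · exact up (an n h1 h2) (low (nn n (by omega)))
  · intro r h1 h2
    exact DART_eq (a6 r h1) (fun h => n5 (h.mono h2))
  · intro r h1 h2
    have h5 : ¬ Avoid r 5 := fun h => n5 (h.mono (by linarith))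
    by_cases h6 : Avoid r 6
    · exact Or.inl (DART_eq h6 h5)
    · refine Or.inr (DART_eq (an 7 le_rfl (by norm_num) r ?_) h6)
      norm_num
      exact h1
  · intro n h1 h2 r h3 h4
    obtain ⟨m, rfl⟩ : ∃ m, n = m + 1 := ⟨n - 1, by omega⟩
    have hm : ¬ Avoid r m := by
      intro h
      apply nn m (by omega)
      apply h.mono
      have e : ((m + 1 : ℕ) : ℝ) - 4 = (m : ℝ) - 3 := by push_cast; ring
      rw [e] at h4
      exact h4
    by_cases h5 : Avoid r (m + 1)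
    · exact Or.inl (DART_eq h5 hm)
    · refine Or.inr (DART_eq (an (m + 1 + 1) (by omega) (by omega) r ?_) h5)
      have e : ((m + 1 + 1 : ℕ) : ℝ) - 4 = ((m + 1 : ℕ) : ℝ) - 3 := by push_cast; ring
      rw [e]
      exact h3

end Pool.Agent.Results.MP_bbea99_co.SixToTwelve
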